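import Pool.Agent.H53.SPG.Prog

/-! Circuits with linear programming gates and arbitrary special gates. -/

set_option autoImplicit false
set_option linter.unusedSectionVars false

namespace Pool.Agent.H53.SPG

open Pool.Agent.H58.LM

open Finset

variable {n s R : ℕ}

/-- tests of adjacency, small monotone gates and linear programming gates -/
def Circuit.IsPlain (C : Circuit n s R) (i : Fin s) : Prop :=
  (∃ u v, ∀ G, C.val i G = bit (G.Adj u v)) ∨
  (∃ Φ, Kind R (C.ins i) Φ ∧ ∀ G, C.val i G = Φ fun j => C.val j G)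

/-- The special gates that are not of one of the other kinds. -/
noncomputable def Circuit.proper (C : Circuit n s R) : Finset (Fin s) :=
  @Finset.filter _ (fun i => ¬ C.IsPlain i) (Classical.decPred _) C.special

theorem Circuit.mem_proper {C : Circuit n s R} {i : Fin s} :
    i ∈ C.proper ↔ i ∈ C.special ∧ ¬ C.IsPlain i := by
  unfold Circuit.proper
  simp only [Finset.mem_filter]

theorem Circuit.plain_or (C : Circuit n s R) (i : Fin s) :
    C.IsPlain i ∨ (i ∈ C.special ∧
      ∀ G H, (∀ j ∈ C.ins i, C.val j G = C.val j H) → C.val i G = C.val i H) := by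
  rcases C.gate i with h | ⟨Φ, h2, h3⟩ | ⟨P, lo, hi, h1, h2, h3, h4⟩ | ⟨Φ, h2, h3⟩ | ⟨h1, h2⟩
  · exact Or.inl (Or.inl h)
  · exact Or.inl (Or.inr ⟨Φ, Or.inl h2, h3⟩)
  · exact Or.inl (Or.inr ⟨fun a => P.value (C.ins i) a lo hi,
      Or.inr (Or.inl ⟨P, lo, hi, h1, h2, h3, fun _ => rfl⟩), h4⟩)
  · exact Or.inl (Or.inr ⟨Φ, Or.inr (Or.inr h2), h3⟩)
  · exact Or.inr ⟨h1, h2⟩

theorem Circuit.plain_or_proper (C : Circuit n s R) (i : Fin s) :
    C.IsPlain i ∨ i ∈ C.proper := by
  by_cases h : C.IsPlain i
  · exact Or.inl h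
  · rcases C.plain_or i with h' | h'
    · exact Or.inl h'
    · exact Or.inr (Circuit.mem_proper.2 ⟨h'.1, h⟩)

theorem Circuit.proper_spec {C : Circuit n s R} {i : Fin s} (hi : i ∈ C.proper) :
    ∀ G H, (∀ j ∈ C.ins i, C.val j G = C.val j H) → C.val i G = C.val i H := by
  rcases C.plain_or i with h | h
  · exact absurd h (Circuit.mem_proper.1 hi).2
  · exact h.2

theorem Circuit.ins_subset {C : Circuit n s R} {i : Fin s} (hi : i ∈ C.special) :
    C.ins i ⊆ C.watched := fun _ hj => Finset.mem_biUnion.2 ⟨i, hi, hj⟩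

/-- Equal values of the watched gates below `i` give equal values of the proper special
gates up to `i`. -/
theorem Circuit.special_eq (C : Circuit n s R) {x y : SimpleGraph (Fin n)}
    {l : Fin s} (hl : l ∈ C.proper) (h : ∀ j ∈ C.watched, j < l → C.val j x = C.val j y) :
    C.val l x = C.val l y :=
  C.proper_spec hl x y fun j hj => h j
    (C.ins_subset (Circuit.mem_proper.1 hl).1 hj) (C.lt l j hj)

/-- As long as the proper special gates keep their values, all gates are monotone. -/
theorem Circuit.mono' (C : Circuit n s R) (Q : Fin s → Prop)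
    (hQ : ∀ i, Q i → ∀ j ∈ C.ins i, Q j) {x y : SimpleGraph (Fin n)} (hxy : x ≤ y)
    (hsp : ∀ l ∈ C.proper, Q l → C.val l x = C.val l y) :
    ∀ i, Q i → C.val i x ≤ C.val i y := by
  suffices H : ∀ m : ℕ, ∀ i : Fin s, i.1 < m → Q i → C.val i x ≤ C.val i y by
    exact fun i => H s i i.2
  intro m
  induction m with
  | zero =>
    intro i hi
    omega
  | succ m ih =>
    intro i hi hQi
    have ih' : ∀ j ∈ C.ins i, C.val j x ≤ C.val j y := by
      intro j hj
      have h1 : j.1 < i.1 := C.lt i j hj
      exact ih j (by omega) (hQ i hQi j hj)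
    rcases C.plain_or_proper i with (⟨u, v, h⟩ | ⟨Φ, hΦ, h⟩) | h
    · rw [h, h]
      exact bit_mono fun hadj => hxy hadj
    · rw [h, h]
      exact hΦ.mono ih'
    · exact (hsp i h hQi).le

/-- The circuit with the proper special gates replaced by their values on `G₀`. -/
theorem Circuit.exists_frozen (C : Circuit n s R) (G₀ : SimpleGraph (Fin n)) :
    ∃ f : Fin s → SimpleGraph (Fin n) → ℝ, ∀ i,
      (∃ u v, (∀ G, C.val i G = bit (G.Adj u v)) ∧ ∀ G, f i G = bit (G.Adj u v)) ∨
      (∃ Φ, Kind R (C.ins i) Φ ∧ (∀ G, C.val i G = Φ fun j => C.val j G) ∧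
        ∀ G, f i G = Φ fun j => f j G) ∨
      (i ∈ C.proper ∧ ∀ G, f i G = C.val i G₀) := by
  classical
  let F : (i : Fin s) → ((j : Fin s) → j < i → SimpleGraph (Fin n) → ℝ) →
      SimpleGraph (Fin n) → ℝ := fun i rec H =>
    if hA : ∃ u v, ∀ G, C.val i G = bit (G.Adj u v) then
      bit (H.Adj hA.choose hA.choose_spec.choose)
    else if hP : ∃ Φ, Kind R (C.ins i) Φ ∧ ∀ G, C.val i G = Φ fun j => C.val j G then
      hP.choose fun j => if hj : j < i then rec j hj H else 0
    else C.val i G₀
  have wf : WellFounded ((· < ·) : Fin s → Fin s → Prop) := wellFounded_lt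
  refine ⟨wf.fix F, fun i => ?_⟩
  have heq : wf.fix F i = F i fun j _ => wf.fix F j := wf.fix_eq F i
  by_cases hA : ∃ u v, ∀ G, C.val i G = bit (G.Adj u v)
  · refine Or.inl ⟨hA.choose, hA.choose_spec.choose, hA.choose_spec.choose_spec, fun G => ?_⟩
    rw [heq]
    show (if hA : ∃ u v, ∀ G, C.val i G = bit (G.Adj u v) then _ else _) = _
    rw [dif_pos hA]
  · by_cases hP : ∃ Φ, Kind R (C.ins i) Φ ∧ ∀ G, C.val i G = Φ fun j => C.val j G
    · refine Or.inr (Or.inl ⟨hP.choose, hP.choose_spec.1, hP.choose_spec.2, fun G => ?_⟩)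
      rw [heq]
      show (if hA : ∃ u v, ∀ G, C.val i G = bit (G.Adj u v) then _ else _) = _
      rw [dif_neg hA]
      show (if hP : ∃ Φ, Kind R (C.ins i) Φ ∧ ∀ G, C.val i G = Φ fun j => C.val j G
        then _ else _) = _
      rw [dif_pos hP]
      exact hP.choose_spec.1.congr fun j hj => dif_pos (C.lt i j hj)
    · refine Or.inr (Or.inr ⟨?_, fun G => ?_⟩)
      · rcases C.plain_or_proper i with (h | h) | h
        · exact absurd h hA
        · exact absurd h hP
        · exact h
      · rw [heq]
        show (if hA : ∃ u v, ∀ G, C.val i G = bit (G.Adj u v) then _ else _) = _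
        rw [dif_neg hA]
        show (if hP : ∃ Φ, Kind R (C.ins i) Φ ∧ ∀ G, C.val i G = Φ fun j => C.val j G
          then _ else _) = _
        rw [dif_neg hP]

/-- **Detector.** For every graph `G` a change of a watched gate, or the event that gate `o`
reaches the value `θ`, is detected by a circuit without special gates. -/
theorem Circuit.exists_detector (C : Circuit n s R) (G : SimpleGraph (Fin n)) (o : Fin s) (θ : ℝ)
    (ho : C.val o G < θ) :
    ∃ (f : Fin (s + 1) → SimpleGraph (Fin n) → ℝ), (∀ i, Plain R f i) ∧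
      ∀ H, G ≤ H → f (Fin.last s) H =
        bit ((∃ i ∈ C.watched, C.val i G ≠ C.val i H) ∨ θ ≤ C.val o H) := by
  classical
  obtain ⟨f, hf⟩ := C.exists_frozen G
  -- the frozen circuit agrees with the circuit as long as the special gates keep their values
  have hfH : ∀ (H : SimpleGraph (Fin n)), ∀ m : ℕ, ∀ i : Fin s, i.1 < m →
      (∀ l ∈ C.proper, l ≤ i → C.val l H = C.val l G) → f i H = C.val i H := by
    intro H m
    induction m with
    | zero =>
      intro i hi
      omega
    | succ m ih =>
      intro i hi h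
      rcases hf i with ⟨u, v, h1, h2⟩ | ⟨Φ, hΦ, h1, h2⟩ | ⟨h1, h2⟩
      · rw [h1, h2]
      · rw [h1, h2]
        refine hΦ.congr fun j hj => ih j ?_ fun l hl hlj => h l hl ?_
        · have h3 : j.1 < i.1 := C.lt i j hj
          omega
        · exact hlj.trans (C.lt i j hj).le
      · rw [h2]
        exact (h i h1 le_rfl).symm
  have hfH' : ∀ (H : SimpleGraph (Fin n)) (i : Fin s),
      (∀ l ∈ C.proper, l ≤ i → C.val l H = C.val l G) → f i H = C.val i H :=
    fun H i => hfH H (i.1 + 1) i (Nat.lt_succ_self _)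
  have hfG : ∀ i : Fin s, f i G = C.val i G := fun i => hfH' G i fun l _ _ => rfl
  -- monotone
  have hmon : ∀ (H : SimpleGraph (Fin n)), G ≤ H → ∀ i : Fin s, f i G ≤ f i H := by
    intro H hGH
    suffices hm : ∀ m : ℕ, ∀ i : Fin s, i.1 < m → f i G ≤ f i H by
      exact fun i => hm s i i.2
    intro m
    induction m with
    | zero =>
      intro i hi
      omega
    | succ m ih =>
      intro i hi
      rcases hf i with ⟨u, v, h1, h2⟩ | ⟨Φ, hΦ, h1, h2⟩ | ⟨h1, h2⟩
      · rw [h2, h2]
        exact bit_mono fun hadj => hGH hadj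
      · rw [h2, h2]
        refine hΦ.mono fun j hj => ih j ?_
        have h3 : j.1 < i.1 := C.lt i j hj
        omega
      · rw [h2, h2]
  -- the detector
  obtain ⟨I, hI⟩ : ∃ I : Finset (Fin s), I = insert o C.watched := ⟨_, rfl⟩
  obtain ⟨E, hE⟩ : ∃ E : Fin s → ℝ → Prop, ∀ i t, E i t ↔
      if i ∈ C.watched then C.val i G < t else θ ≤ t := ⟨_, fun _ _ => Iff.rfl⟩
  have hEmono : ∀ i a b, a ≤ b → E i a → E i b := by
    intro i a b hab h
    rw [hE] at h ⊢
    split_ifs at h ⊢ with hi
    · exact lt_of_lt_of_le h hab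
    · exact h.trans hab
  obtain ⟨g, hg1, hg2⟩ : ∃ g : Fin (s + 1) → SimpleGraph (Fin n) → ℝ,
      (∀ i, g (Fin.castSucc i) = f i) ∧ g (Fin.last s) = fun H => bit (∃ j ∈ I, E j (f j H)) :=
    ⟨Fin.snoc (α := fun _ => SimpleGraph (Fin n) → ℝ) f fun H => bit (∃ j ∈ I, E j (f j H)),
      fun i => Fin.snoc_castSucc _ _ _, Fin.snoc_last _ _⟩
  refine ⟨g, fun i => ?_, ?_⟩
  · refine Fin.lastCases ?_ (fun i => ?_) i
    · obtain ⟨P, h1, h2, h3⟩ := exists_or (I.map (Fin.castSuccEmb (n := s)))
      refine Or.inr (Or.inr (Or.inr (Or.inl ⟨P, I.map Fin.castSuccEmb,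
        fun j t => bit (∃ j' : Fin s, Fin.castSucc j' = j ∧ E j' t), 0, 1, by omega, ?_, ?_, h2,
        zero_le_one, fun H => ?_⟩)))
      · intro j hj
        obtain ⟨j', -, rfl⟩ := Finset.mem_map.1 hj
        exact Fin.castSucc_lt_last j'
      · intro j a b hab
        refine bit_mono ?_
        rintro ⟨j', h, h'⟩
        exact ⟨j', h, hEmono j' a b hab h'⟩
      · rw [h3, hg2]
        refine bit_congr ?_
        constructor
        · rintro ⟨j, hj, h⟩
          refine ⟨Fin.castSucc j, Finset.mem_map_of_mem Fin.castSuccEmb hj, j, rfl, ?_⟩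
          rw [hg1]
          exact h
        · rintro ⟨j, hj, j', h, h'⟩
          obtain ⟨j'', hj'', rfl⟩ := Finset.mem_map.1 hj
          have h4 : j' = j'' := Fin.castSucc_injective _ h
          subst h4
          refine ⟨j', hj'', ?_⟩
          have h5 : E j' (g (Fin.castSucc j') H) := h'
          rwa [hg1] at h5
    · rcases hf i with ⟨u, v, h1, h2⟩ | ⟨Φ, hΦ, h1, h2⟩ | ⟨h1, h2⟩
      · exact Or.inl ⟨u, v, fun H => by rw [hg1]; exact h2 H⟩
      · rcases hΦ with h3 | ⟨P, lo, hi, h3, h4, h5, h6⟩ | h3
        · refine Or.inr (Or.inr (Or.inl fun H => ?_))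
          obtain ⟨S, h4, h5, h6⟩ := h3 fun j => f j H
          refine ⟨S.map Fin.castSuccEmb, by rw [Finset.card_map]; exact h5, ?_, fun K hHK => ?_⟩
          · intro j hj
            obtain ⟨j', hj', rfl⟩ := Finset.mem_map.1 hj
            exact Fin.castSucc_lt_castSucc_iff.mpr (C.lt i j' (h4 hj'))
          · rw [hg1, h2, h2]
            refine h6 _ fun j hj => ?_
            have h7 := hHK (Fin.castSucc j) (Finset.mem_map_of_mem Fin.castSuccEmb hj)
            rwa [hg1] at h7
        · refine Or.inr (Or.inr (Or.inr (Or.inl ⟨P.map Fin.castSuccEmb,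
            (C.ins i).map Fin.castSuccEmb,
            fun _ t => t, lo, hi, h3, ?_, fun _ => monotone_id, h4.map _, h5, fun H => ?_⟩)))
          · intro j hj
            obtain ⟨j', hj', rfl⟩ := Finset.mem_map.1 hj
            exact Fin.castSucc_lt_castSucc_iff.mpr (C.lt i j' hj')
          · rw [hg1, Program.map_value, h2, h6]
            refine value_congr fun j _ => ?_
            show f j H = g (Fin.castSucc j) H
            rw [hg1]
        · refine Or.inr (Or.inr (Or.inr (Or.inr fun t => ?_)))
          obtain ⟨P, h4, h5, h6⟩ := h3 t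
          refine ⟨P.map Fin.castSucc, h4, fun r => ?_, fun H => ?_⟩
          · exact Fin.castSucc_lt_castSucc_iff.mpr (C.lt i _ (h5 r))
          · rw [hg1, h2, h6, SpanProgram.map_accepts]
            simp only [hg1]
      · exact Or.inr (Or.inl ⟨C.val i G, fun H => by rw [hg1]; exact h2 H⟩)
  · intro H hGH
    rw [hg2]
    refine bit_congr ?_
    constructor
    · rintro ⟨i, hiI, h2⟩
      by_contra hcon
      push Not at hcon
      obtain ⟨hcon1, hcon2⟩ := hcon
      -- all special gates agree
      have h3 : ∀ l ∈ C.proper, C.val l H = C.val l G := fun l hl =>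
        (C.special_eq hl fun j hj _ => hcon1 j hj).symm
      have h4 : f i H = C.val i H := hfH' H i fun l hl _ => h3 l hl
      rw [h4, hE] at h2
      by_cases hiw : i ∈ C.watched
      · rw [if_pos hiw] at h2
        exact absurd (hcon1 i hiw) (ne_of_lt h2)
      · rw [if_neg hiw] at h2
        rw [hI] at hiI
        rcases Finset.mem_insert.1 hiI with rfl | h
        · linarith
        · exact hiw h
    · intro h
      by_contra hcon
      push Not at hcon
      have hnot : ∀ j ∈ C.watched, f j H = C.val j G := by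
        intro j hj
        have h3 : ¬ E j (f j H) := hcon j (by rw [hI]; exact Finset.mem_insert_of_mem hj)
        rw [hE, if_pos hj] at h3
        have h4 := hmon H hGH j
        rw [hfG] at h4
        linarith
      -- the first change
      have h3 : ∀ m : ℕ, ∀ l ∈ C.proper, l.1 < m → C.val l H = C.val l G := by
        intro m
        induction m with
        | zero =>
          intro l _ hl
          omega
        | succ m ih =>
          intro l hl hlm
          refine (C.special_eq hl fun j hj hjl => ?_).symm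
          have hjl' : j.1 < l.1 := hjl
          have h4 : f j H = C.val j H := hfH' H j fun l' hl' hl'j => by
            have : l'.1 ≤ j.1 := hl'j
            exact ih l' hl' (by omega)
          rw [← h4]
          exact (hnot j hj).symm
      have h5 : ∀ i, f i H = C.val i H := fun i => hfH' H i fun l hl _ => h3 s l hl l.2
      rcases h with ⟨i, hi, hne⟩ | h
      · apply hne
        rw [← h5 i]
        exact (hnot i hi).symm
      · have h6 : ¬ E o (f o H) := hcon o (by rw [hI]; exact Finset.mem_insert_self _ _)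
        rw [hE] at h6
        split_ifs at h6 with how
        · have h7 := hnot o how
          rw [h5] at h7
          linarith
        · rw [h5] at h6
          exact h6 h

end Pool.Agent.H53.SPG
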