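import Mathlib

/-! Circuits over the real numbers with linear programming gates and span programme gates: the
definitions used in the statements. -/

set_option autoImplicit false

namespace Pool.Agent.H53.SPG

open Classical in
/-- The number 1 if `P` is true and 0 if it is false. -/
noncomputable def bit (P : Prop) : ℝ := if P then 1 else 0

/-- A linear programme whose constraints and objective function depend on real numbers `a j`. It
has any number `dim` of real unknowns `p`, any number of linear equations (`p` is in the affine
subspace `eqs`), the `num` inequalities `0 ≤ ineq r p + ∑ j, rhs r j * a j`, and the objective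
function `obj p + ∑ j, a j * wt j p`, to be maximised. -/
structure Program (T : Type) where
  /-- the number of unknowns -/
  dim : ℕ
  /-- the number of inequalities -/
  num : ℕ
  /-- the linear equations -/
  eqs : AffineSubspace ℝ (Fin dim → ℝ)
  /-- the inequalities: an affine function of the unknowns ... -/
  ineq : Fin num → (Fin dim → ℝ) →ᵃ[ℝ] ℝ
  /-- ... and nonnegative coefficients of the numbers `a j` -/
  rhs : Fin num → T → ℝ
  rhs_nonneg : ∀ r j, 0 ≤ rhs r j
  /-- the objective function: an affine function of the unknowns ... -/
  obj : (Fin dim → ℝ) →ᵃ[ℝ] ℝ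
  /-- ... and affine functions which are multiplied by the numbers `a j` -/
  wt : T → (Fin dim → ℝ) →ᵃ[ℝ] ℝ

/-- `p` is a feasible point at the numbers `a j`, `j` in `S`. -/
def Program.Feasible {T : Type} (P : Program T) (S : Finset T) (a : T → ℝ)
    (p : Fin P.dim → ℝ) : Prop :=
  p ∈ P.eqs ∧ ∀ r, 0 ≤ P.ineq r p + ∑ j ∈ S, P.rhs r j * a j

/-- the objective function -/
noncomputable def Program.objective {T : Type} (P : Program T) (S : Finset T) (a : T → ℝ)
    (p : Fin P.dim → ℝ) : ℝ :=
  P.obj p + ∑ j ∈ S, a j * P.wt j p

/-- The functions `wt j` are nonnegative at all feasible points, so that the optimum is a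
nondecreasing function of the numbers `a j`. -/
def Program.Mono {T : Type} (P : Program T) (S : Finset T) : Prop :=
  ∀ a p, P.Feasible S a p → ∀ j ∈ S, 0 ≤ P.wt j p

/-- The optimum of the programme, cut off at `lo` and at `hi`: it is `lo` if there is no feasible
point or the optimum is smaller than `lo`, and `hi` if the optimum is larger than `hi`. -/
noncomputable def Program.value {T : Type} (P : Program T) (S : Finset T) (a : T → ℝ)
    (lo hi : ℝ) : ℝ :=
  sSup {t | t ≤ hi ∧ (t = lo ∨ ∃ p, P.Feasible S a p ∧ t ≤ P.objective S a p)}

/-- A monotone span programme which depends on real numbers `a j`: a field `F` whose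
characteristic is not 2, vectors of any length `dim`, a target vector, and `num` rows. Row `r` may
be used if `thr r ≤ a (src r)`. -/
structure SpanProgram (T : Type) where
  /-- the field -/
  F : Type
  [field : Field F]
  two_ne_zero : (2 : F) ≠ 0
  /-- the length of the vectors -/
  dim : ℕ
  /-- the number of rows -/
  num : ℕ
  /-- the rows -/
  row : Fin num → Fin dim → F
  /-- the target vector -/
  target : Fin dim → F
  /-- the number read by a row -/
  src : Fin num → T
  /-- the threshold of a row -/
  thr : Fin num → ℝ

attribute [instance] SpanProgram.field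

/-- The target is a linear combination of the rows which may be used at the numbers `a j`. -/
def SpanProgram.Accepts {T : Type} (P : SpanProgram T) (a : T → ℝ) : Prop :=
  ∃ c : Fin P.num → P.F, (∀ r, c r ≠ 0 → P.thr r ≤ a (P.src r)) ∧
    ∀ i, ∑ r, c r * P.row r i = P.target i

/-- A circuit with `s` gates on graphs with vertex set `Fin n`, in topological order: gate `i`
reads the earlier gates in `ins i` and has the real value `val i G` at the graph `G`. It is one of
the following: the test whether two fixed vertices are adjacent (value 1 or 0); a maximum of any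
number of nondecreasing functions of at most six gates each (at every point `a` the value `φ a` is
forced by at most six coordinates); a linear programme with at most `R` inequalities; a span gate,
that is a function `φ` such that for every `t` some span programme with at most `R` rows decides
whether `t ≤ φ a`; or one of the special gates, which compute arbitrary Boolean functions of gates
with values 0 and 1. -/
structure Circuit (n s R : ℕ) where
  /-- the value of a gate -/
  val : Fin s → SimpleGraph (Fin n) → ℝ
  /-- the gates read by a gate -/
  ins : Fin s → Finset (Fin s)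
  /-- the special gates -/
  special : Finset (Fin s)
  lt : ∀ i, ∀ j ∈ ins i, j < i
  bit_out : ∀ i ∈ special, ∀ G, val i G = 0 ∨ val i G = 1
  bit_in : ∀ i ∈ special, ∀ j ∈ ins i, ∀ G, val j G = 0 ∨ val j G = 1
  gate : ∀ i,
    (∃ u v, ∀ G, val i G = bit (G.Adj u v)) ∨
    (∃ φ : (Fin s → ℝ) → ℝ,
      (∀ a, ∃ S ⊆ ins i, S.card ≤ 6 ∧ ∀ b, (∀ j ∈ S, a j ≤ b j) → φ a ≤ φ b) ∧
      ∀ G, val i G = φ fun j => val j G) ∨
    (∃ (P : Program (Fin s)) (lo hi : ℝ), P.num ≤ R ∧ P.Mono (ins i) ∧ lo ≤ hi ∧
      ∀ G, val i G = P.value (ins i) (fun j => val j G) lo hi) ∨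
    (∃ φ : (Fin s → ℝ) → ℝ,
      (∀ t, ∃ P : SpanProgram (Fin s), P.num ≤ R ∧ (∀ r, P.src r ∈ ins i) ∧
        ∀ a, t ≤ φ a ↔ P.Accepts a) ∧
      ∀ G, val i G = φ fun j => val j G) ∨
    (i ∈ special ∧ ∀ G H, (∀ j ∈ ins i, val j G = val j H) → val i G = val i H)

/-- The gates that are read by a special gate. -/
def Circuit.watched {n s R : ℕ} (C : Circuit n s R) : Finset (Fin s) :=
  C.special.biUnion C.ins

/-- `Quantified q Q f` is the statement `Q₀ y₀ Q₁ y₁ ... f y` about the bits `y`, where `Q i` is
an existential quantifier if it is true and a universal quantifier if it is false. -/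
def Quantified : (q : ℕ) → (Fin q → Bool) → ((Fin q → Bool) → Prop) → Prop
  | 0, _, f => f Fin.elim0
  | q + 1, Q, f =>
    if Q 0 then ∃ b, Quantified q (fun i => Q i.succ) (fun y => f (Fin.cons b y))
    else ∀ b, Quantified q (fun i => Q i.succ) (fun y => f (Fin.cons b y))

end Pool.Agent.H53.SPG
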