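import Pool.Agent.H58.LG.Beh
import Pool.Agent.H53.SPG.Quant

/-! Cliques of fixed size: almost `n ^ 2` steps. -/

set_option autoImplicit false
set_option linter.unusedSectionVars false

namespace Pool.Agent.H53.SPG

open Pool.Agent.H58.LM

open Finset
open Pool.Agent.H25.NM (nc nc_eq nc_true pre pre_mono)
open Pool.Agent.H25.NP (uni emb cliqueFree_uni)
open Pool.Agent.H58.LG (exists_blocks_free)

theorem union_cliqueFree {V α : Type} [Fintype V] [DecidableEq V] [Fintype α] [DecidableEq α]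
    [Nonempty α] {n J g : ℕ} (B : Gr V) (hV : 4 ≤ Fintype.card V) (hg : 1 ≤ g)
    (φ : Fin J → BV g V α ↪ Fin n)
    (hφ : ∀ i j u v u' v', u ≠ v → φ i u = φ j u' → φ i v = φ j v' → i = j)
    (hφ3 : ∀ i j l a a' b b' c c', φ i a = φ l a' → φ i b = φ j b' → φ j c = φ l c' →
        φ i a ≠ φ i b → φ i b ≠ φ j c → φ i a ≠ φ j c → i = j ∧ j = l)
    (ω : Fin J → (TE g V → α → Bool)) :
    (pre φ (mp B) ω J).CliqueFree (g * Fintype.card V) := by
  classical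
  intro K hK
  have hm : 4 ≤ g * Fintype.card V := hV.trans (Nat.le_mul_of_pos_left _ hg)
  have hedge : ∀ x ∈ K, ∀ y ∈ K, x ≠ y → ∃ (i : Fin J) (a b : BV g V α),
      (mp B (ω i)).Adj a b ∧ φ i a = x ∧ φ i b = y := by
    intro x hx y hy hxy
    obtain ⟨i, -, hadj⟩ := hK.isClique (Finset.mem_coe.mpr hx) (Finset.mem_coe.mpr hy) hxy
    rw [SimpleGraph.map_adj] at hadj
    obtain ⟨a, b, hab, ha, hb⟩ := hadj
    exact ⟨i, a, b, hab, ha, hb⟩
  obtain ⟨x, hx, y, hy, hxy⟩ := Finset.one_lt_card.mp (show 1 < K.card by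
    rw [hK.card_eq]
    omega)
  obtain ⟨i, a, b, -, ha, hb⟩ := hedge x hx y hy hxy
  have hall : ∀ z ∈ K, ∃ c, φ i c = z := by
    intro z hz
    by_cases hzx : z = x
    · exact ⟨a, ha.trans hzx.symm⟩
    by_cases hzy : z = y
    · exact ⟨b, hb.trans hzy.symm⟩
    obtain ⟨j, b', c, -, hb', hc⟩ := hedge y hy z hz (Ne.symm hzy)
    obtain ⟨l, a', c', -, ha', hc'⟩ := hedge x hx z hz (Ne.symm hzx)
    obtain ⟨hij, -⟩ := hφ3 i j l a a' b b' c c' (ha.trans ha'.symm) (hb.trans hb'.symm)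
      (hc.trans hc'.symm) (by rw [ha, hb]; exact hxy) (by rw [hb, hc]; exact Ne.symm hzy)
      (by rw [ha, hc]; exact Ne.symm hzx)
    exact ⟨c, by rw [hij]; exact hc⟩
  obtain ⟨W, hW⟩ : ∃ W : Finset (BV g V α), W = univ.filter fun v => φ i v ∈ K := ⟨_, rfl⟩
  have hmemW : ∀ v, v ∈ W ↔ φ i v ∈ K := by
    intro v
    rw [hW]
    simp
  have hWK : W.map (φ i) = K := by
    ext z
    rw [Finset.mem_map]
    constructor
    · rintro ⟨v, hv, rfl⟩
      exact (hmemW v).mp hv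
    · intro hz
      obtain ⟨c, rfl⟩ := hall z hz
      exact ⟨c, (hmemW c).mpr hz, rfl⟩
  have hWc : W.card = g * Fintype.card V := by
    rw [← hK.card_eq, ← hWK, Finset.card_map]
  have hcl : (mp B (ω i)).IsClique W := by
    intro v hv w hw hne
    have hne' : φ i v ≠ φ i w := fun h => hne ((φ i).injective h)
    obtain ⟨j, e, e', hadj, he, he'⟩ := hedge _ ((hmemW v).mp (Finset.mem_coe.mp hv)) _
      ((hmemW w).mp (Finset.mem_coe.mp hw)) hne'
    have hee : e ≠ e' := fun h => hne' (by rw [← he, ← he', h])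
    have hji : j = i := hφ j i e e' v w hee he he'
    subst hji
    rw [(φ j).injective he, (φ j).injective he'] at hadj
    exact hadj
  have := clique_card hcl (by omega)
  omega

/-- **Main theorem for cliques of fixed size.** -/
theorem fixed {n k w d e u s R : ℕ} (he : 8 ≤ e) (hek : 4320 * e ≤ k) (hkn : 2 * k ≤ n)
    (hu1 : 1 + 2 * (4320 * e) ≤ 2 ^ u) (hu2 : u * (7872 * e + 80) ≤ 2 ^ u)
    (hw : 4320 * e * (2 ^ u) ^ 68 ≤ w) (hd : 2 ≤ d) (hdw : d ≤ w)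
    (hn : 2 * w ^ (d ^ 2 + d + 3) ≤ n) (hJ : 2 * w ^ (2 * d ^ 2 - d) < (2 ^ u) ^ (20 * e))
    (hs : s + 1 ≤ (2 ^ u) ^ (10 * e)) (hR : R + 1 ≤ (2 ^ u) ^ (10 * e))
    (C : Circuit n s R) (out : Fin s) (θ : ℝ)
    (hC : (∀ G : SimpleGraph (Fin n), θ ≤ C.val out G ↔ ¬ G.CliqueFree k) ∨
      (∀ G : SimpleGraph (Fin n), θ ≤ C.val out G ↔ G.CliqueFree k)) :
    ∃ y : ℕ → SimpleGraph (Fin n), Monotone y ∧ ∀ a < w ^ (2 * d ^ 2 - d),
      ∃ i ∈ C.watched, C.val i (y a) ≠ C.val i (y (a + 1)) := by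
  classical
  obtain ⟨m, hm⟩ : ∃ m, m = 4320 * e := ⟨_, rfl⟩
  have : NeZero (48 * (90 * e)) := ⟨by omega⟩
  obtain ⟨B, hB⟩ := exists_good (D := 90 * e) (by omega)
  have hVq : Fintype.card (ZMod (48 * (90 * e))) = m := by rw [ZMod.card, hm]; ring
  set n₀ : ℕ := n - (k - m) with hn₀
  have hn₀n : n₀ ≤ n := Nat.sub_le _ _
  have hkk : k = m + (n - n₀) := by omega
  have hα : Nonempty (Fin ((2 ^ u) ^ 17)) := ⟨⟨0, by positivity⟩⟩
  have hVc : Fintype.card (BV 1 (ZMod (48 * (90 * e))) (Fin ((2 ^ u) ^ 17))) =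
      m * (2 ^ u) ^ 68 := by
    rw [Fintype.card_prod, card_TV, Fintype.card_fun, Fintype.card_fin, Fintype.card_fin,
      hVq, one_mul, ← pow_mul (2 ^ u)]
  have hw2 : 2 ≤ w := by
    have h1 : 1 ≤ (2 ^ u) ^ 68 := Nat.one_le_pow _ _ (by positivity)
    have h2 : 4320 * e * 1 ≤ 4320 * e * (2 ^ u) ^ 68 := Nat.mul_le_mul_left _ h1
    omega
  obtain ⟨φ, hφ, hφ3⟩ := exists_blocks_free
    (V := BV 1 (ZMod (48 * (90 * e))) (Fin ((2 ^ u) ^ 17))) (n := n₀) (w := w)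
    (by rw [hVc, hm]; exact hw) hw2 hd hdw (by omega)
  generalize w ^ (2 * d ^ 2 - d) = J at *
  have hmq : 1 * Fintype.card (ZMod (48 * (90 * e))) = m := by rw [one_mul, hVq]
  have hfree : ∀ ω : Fin J → (TE 1 (ZMod (48 * (90 * e))) → Fin ((2 ^ u) ^ 17) → Bool),
      (pre φ (mp B) ω J).CliqueFree m := by
    intro ω
    have h1 := union_cliqueFree B (by rw [hVq]; omega) le_rfl φ hφ hφ3 ω
    rwa [hmq] at h1
  -- detectors
  obtain ⟨θ', hθ1, hθ2⟩ := exists_threshold C out θ hC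
  set U : SimpleGraph (Fin n₀) → SimpleGraph (Fin n) := fun G => uni n n₀ ⊔ G.map (emb hn₀n)
    with hU
  have hUmono : ∀ G H, G ≤ H → U G ≤ U H := by
    intro G H hGH
    refine sup_le_sup_left ?_ _
    exact SimpleGraph.map_monotone _ hGH
  have hUgood : ∀ G : SimpleGraph (Fin n₀), G.CliqueFree m → (U G).CliqueFree k := by
    intro G hG
    by_contra h3
    rw [hkk] at h3
    exact (cliqueFree_uni hn₀n G).1 h3 hG
  obtain ⟨ω, hω1, hω2⟩ := chain B hB (by rw [hVq]; omega) (α := Fin ((2 ^ u) ^ 17)) (u := u)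
    (g := 1) (s := s + 1) (R := R) (Fintype.card_fin _) he le_rfl
    (by rw [hmq, hm]; exact hu1) hu2 hs hR
    (uni n n₀) (emb hn₀n) φ
    (fun G H => (∃ i ∈ C.watched, C.val i (U G) ≠ C.val i (U H)) ∨ θ' ≤ C.val out (U H))
    (fun G => G.CliqueFree m) (fun x y hxy hy => hy.anti hxy) (by
      intro G hG
      obtain ⟨f, hf1, hf2⟩ := C.exists_detector (U G) out θ' (hθ1 _ (hUgood G hG))
      exact ⟨f, Fin.last s, hf1, fun H hGH => hf2 (U H) (hUmono G H hGH)⟩) (by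
      intro j x G hG
      refine hθ2 (U G) (U (G ⊔ (tq B x).map (φ j))) (hUmono _ _ le_sup_left) (hUgood G hG) ?_
      have h1 := tq_not_cliqueFree B (φ j) x G
      rw [hmq] at h1
      rw [hkk]
      exact (cliqueFree_uni hn₀n _).2 h1) (by
      rw [nc_true fun ω => hfree ω]
      omega) hJ
  refine ⟨fun a => U (pre φ (mp B) ω a), fun a b hab => hUmono _ _ (pre_mono ω hab), ?_⟩
  intro a ha
  rcases hω2 ⟨a, ha⟩ with h1 | h1
  · exact h1
  · exfalso
    have h2 : (pre φ (mp B) ω (a + 1)).CliqueFree m :=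
      hω1.anti (pre_mono ω (by omega : a + 1 ≤ J))
    exact absurd h1 (not_le.mpr (hθ1 _ (hUgood _ h2)))

end Pool.Agent.H53.SPG
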