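import Pool.Agent.H53.SPG.FixMain

/-! Cliques of fixed size: the theorem. -/

set_option autoImplicit false
set_option linter.unusedSectionVars false

namespace Pool.Agent.H53.SPG

open Pool.Agent.H58.LM

open Finset Filter

/-- The theorem for cliques of at most `n ^ c` vertices. -/
theorem fixed_asymp {μ : ℝ} (hμ : μ < 2) : ∃ c : ℝ, 0 < c ∧ ∃ n₀ : ℕ, ∀ n ≥ n₀, ∀ k : ℕ,
    2 ≤ k → (k : ℝ) ≤ (n : ℝ) ^ c → ∀ M : ℕ, (M : ℝ) ≤ (n : ℝ) ^ (c * k) →
    (∀ (s : ℕ) (C : Circuit n s M) (out : Fin s) (θ : ℝ), s ≤ M →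
      ((∀ G : SimpleGraph (Fin n), θ ≤ C.val out G ↔ ¬ G.CliqueFree k) ∨
        (∀ G : SimpleGraph (Fin n), θ ≤ C.val out G ↔ G.CliqueFree k)) →
      (∃ A : ℕ, (n : ℝ) ^ μ ≤ A ∧ ∃ y : ℕ → SimpleGraph (Fin n), Monotone y ∧
          ∀ a < A, ∃ i ∈ C.watched, C.val i (y a) ≠ C.val i (y (a + 1))) ∧
      (∀ (d : ℕ) (lev : Fin s → ℕ), (∀ i, ∀ j ∈ C.ins i, lev j ≤ lev i) →
        (∀ i ∈ C.special, ∀ j ∈ C.ins i, lev j < lev i) → (∀ j ∈ C.watched, lev j < d) →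
        (n : ℝ) ^ μ ≤ ∏ a ∈ range d, (1 + ((C.watched.filter fun j => lev j = a).card : ℝ)))) ∧
    (∀ (q s r t : ℕ) (Q : Fin q → Bool) (C : (Fin q → Bool) → Circuit n s M)
      (out : (Fin q → Bool) → Fin s) (θ : (Fin q → Bool) → ℝ), 2 ^ q * (s + 1) ≤ M →
      (∀ y, (C y).special.card ≤ r) → (∀ y, ∀ i ∈ (C y).special, ((C y).ins i).card ≤ t) →
      ((∀ G : SimpleGraph (Fin n),
          Quantified q Q (fun y => θ y ≤ (C y).val (out y) G) ↔ ¬ G.CliqueFree k) ∨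
        (∀ G : SimpleGraph (Fin n),
          Quantified q Q (fun y => θ y ≤ (C y).val (out y) G) ↔ G.CliqueFree k)) →
      (n : ℝ) ^ μ ≤ t * 2 ^ (q + r)) := by
  classical
  obtain ⟨c, hc, n₀, h⟩ := exists_params hμ
  refine ⟨c, hc, n₀, fun n hn k hk hkn M hM => ?_⟩
  -- one circuit
  obtain ⟨B, hμB, key⟩ : ∃ B : ℕ, (n : ℝ) ^ μ ≤ B ∧
      ∀ (s : ℕ) (C : Circuit n s M) (out : Fin s) (θ : ℝ), s ≤ M →
      ((∀ G : SimpleGraph (Fin n), θ ≤ C.val out G ↔ ¬ G.CliqueFree k) ∨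
        (∀ G : SimpleGraph (Fin n), θ ≤ C.val out G ↔ G.CliqueFree k)) →
      ∃ y : ℕ → SimpleGraph (Fin n), Monotone y ∧
        ∀ a < B, ∃ i ∈ C.watched, C.val i (y a) ≠ C.val i (y (a + 1)) := by
    rcases h n hn k hk hkn M hM with ⟨h1, h2⟩ |
      ⟨w, d, e, u, h1, h2, h3, h4, h5, h6, h7, h8, h9, h10, h11, h12⟩
    · obtain ⟨B, hB⟩ := exists_nat_ge ((n : ℝ) ^ μ)
      refine ⟨B, hB, fun s C out θ hs hC => ?_⟩
      exact (few_gates hk h2 (by omega) C out θ hC).elim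
    · refine ⟨w ^ (2 * d ^ 2 - d), h12, fun s C out θ hs hC => ?_⟩
      exact fixed h1 h2 h3 h4 h5 h6 h7 h8 h9 h10 (by omega) h11 C out θ hC
  refine ⟨fun s C out θ hs hC => ?_, fun q s r t Q C out θ hs hr ht hC => ?_⟩
  · obtain ⟨y, hy, hAy⟩ := key s C out θ hs hC
    refine ⟨⟨B, hμB, y, hy, hAy⟩, fun d' lev h1 h2 h3 => ?_⟩
    have h4 := changes_le_levels C lev h1 h2 h3 hy hAy
    refine hμB.trans ?_
    have h5 : (B : ℝ) ≤
        ((∏ a ∈ range d', (1 + (C.watched.filter fun j => lev j = a).card) : ℕ) : ℝ) := by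
      exact_mod_cast (Nat.le_succ _).trans h4
    refine h5.trans (le_of_eq ?_)
    push_cast
    rfl
  · obtain ⟨N, C', o, θ', h1, h2, h3⟩ := quant_circuit q Q C out θ
    obtain ⟨y, hy, hAy⟩ := key N C' o θ' (by omega) (by
      rcases hC with hC | hC
      · exact Or.inl fun G => (h2 G).trans (hC G)
      · exact Or.inr fun G => (h2 G).trans (hC G))
    refine hμB.trans ?_
    let D : (Fin q → Bool) → Finset ℕ := fun z => @Finset.filter _ (fun a => ∃ i ∈ (C z).watched,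
      (C z).val i (y a) ≠ (C z).val i (y (a + 1))) (Classical.decPred _) (range B)
    have hD : range B ⊆ (univ : Finset (Fin q → Bool)).biUnion D := by
      intro a ha
      obtain ⟨w, hw, hne⟩ := hAy a (Finset.mem_range.1 ha)
      obtain ⟨z, i, hi, h4⟩ := h3 w hw
      rw [h4] at hne
      exact Finset.mem_biUnion.2 ⟨z, Finset.mem_univ _,
        (@Finset.mem_filter _ _ (Classical.decPred _) _ _).2 ⟨ha, i, hi, hne⟩⟩
    have hfin : B ≤ t * 2 ^ (q + r) := by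
      calc B = (range B).card := (Finset.card_range B).symm
        _ ≤ ((univ : Finset (Fin q → Bool)).biUnion D).card := Finset.card_le_card hD
        _ ≤ ∑ z : Fin q → Bool, (D z).card := Finset.card_biUnion_le
        _ ≤ ∑ _z : Fin q → Bool, t * 2 ^ r := Finset.sum_le_sum fun z _ =>
            card_changes_le (C z) (hr z) (ht z) hy
        _ = 2 ^ q * (t * 2 ^ r) := by
            rw [Finset.sum_const, Finset.card_univ, Fintype.card_fun, Fintype.card_bool,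
              Fintype.card_fin, smul_eq_mul]
        _ = t * 2 ^ (q + r) := by ring
    exact_mod_cast hfin

end Pool.Agent.H53.SPG
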