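import Pool.Agent.H53.SPG.Chain
import Pool.Agent.H53.SPG.Comb
import Pool.Agent.H25.NM.Lines
import Pool.Agent.H25.NP.Main

/-! The choice of the parameters and the main theorem. -/

set_option autoImplicit false
set_option linter.unusedSectionVars false

namespace Pool.Agent.H53.SPG

open Pool.Agent.H58.LM

open Finset
open Pool.Agent.H25.NM (nc nc_eq nc_add_nc_not pre pre_mono)
open Pool.Agent.H25.NP (uni emb cliqueFree_uni)

/-- a threshold for the output gate -/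
theorem exists_threshold {n s R k : ℕ} (C : Circuit n s R) (out : Fin s) (θ : ℝ)
    (hC : (∀ G : SimpleGraph (Fin n), θ ≤ C.val out G ↔ ¬ G.CliqueFree k) ∨
      (∀ G : SimpleGraph (Fin n), θ ≤ C.val out G ↔ G.CliqueFree k)) :
    ∃ θ' : ℝ, (∀ G : SimpleGraph (Fin n), G.CliqueFree k → C.val out G < θ') ∧
      ∀ G H : SimpleGraph (Fin n), G ≤ H → G.CliqueFree k → ¬ H.CliqueFree k →
        (∃ i ∈ C.watched, C.val i G ≠ C.val i H) ∨ θ' ≤ C.val out H := by
  classical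
  rcases hC with hC | hC
  · refine ⟨θ, fun G hG => ?_, fun G H _ _ hH => Or.inr ((hC H).mpr hH)⟩
    by_contra hcon
    push Not at hcon
    exact (hC G).mp hcon hG
  · obtain ⟨M, hM⟩ := (Set.finite_range (C.val out)).bddAbove
    refine ⟨M + 1, fun G _ => ?_, fun G H hGH hG hH => ?_⟩
    · have := hM (Set.mem_range_self G)
      linarith
    · left
      by_contra hcon
      push Not at hcon
      have h1 := C.mono' (fun _ => True) (fun _ _ _ _ => trivial) hGH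
        (fun l hl _ => C.special_eq hl fun j hj _ => hcon j hj) out trivial
      have h2 := (hC G).mpr hG
      exact hH ((hC H).mp (h2.trans h1))

/-- the exponents are large -/
theorem large {n L l : ℕ} (hL : 1 ≤ L) (hLl : L ≤ l) (hnL : n ≤ 2 ^ L)
    (hln : (200 * l * L) ^ 138 ≤ n) : 4278 ≤ L := by
  have key : ∀ a : ℕ, 2 ^ a ≤ 200 * l * L → a * 138 ≤ L := by
    intro a ha
    have h1 : 2 ^ (a * 138) ≤ 2 ^ L := by
      rw [pow_mul]
      exact (Nat.pow_le_pow_left ha 138).trans (hln.trans hnL)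
    exact (Nat.pow_le_pow_iff_right (by norm_num : 1 < 2)).1 h1
  have step : ∀ b : ℕ, b ≤ L → 200 * b ^ 2 ≤ 200 * l * L := by
    intro b hb
    calc 200 * b ^ 2 = 200 * b * b := by ring
      _ ≤ 200 * l * L := by
        have : b ≤ l := hb.trans hLl
        gcongr
  have h1 := key 7 (le_trans (by norm_num) (step 1 hL))
  have h2 := key 27 (le_trans (by norm_num) (step 966 (by omega)))
  have h3 := key 31 (le_trans (by norm_num) (step 3726 (by omega)))
  omega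

/-- **Main theorem.** In every circuit of size at most `2 ^ l` which decides `k`-clique the
watched gates change many times along some chain of graphs. -/
theorem main {n L l k s : ℕ} (hL : 1 ≤ L) (hLl : L ≤ l) (hnL : n ≤ 2 ^ L)
    (hk1 : 50 * l * L ≤ k) (hk2 : 2 * k ≤ n) (hln : (200 * l * L) ^ 138 ≤ n)
    (hs : s ≤ 2 ^ l) (C : Circuit n s (2 ^ l)) (out : Fin s) (θ : ℝ)
    (hC : (∀ G : SimpleGraph (Fin n), θ ≤ C.val out G ↔ ¬ G.CliqueFree k) ∨
      (∀ G : SimpleGraph (Fin n), θ ≤ C.val out G ↔ G.CliqueFree k)) :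
    ∃ A : ℕ, n ^ 2 ≤ (200 * l * L) ^ 138 * A ∧ ∃ y : ℕ → SimpleGraph (Fin n), Monotone y ∧
      ∀ a < A, ∃ i ∈ C.watched, C.val i (y a) ≠ C.val i (y (a + 1)) := by
  classical
  have hLbig := large hL hLl hnL hln
  have hlbig : 4278 ≤ l := hLbig.trans hLl
  obtain ⟨P, hP⟩ : ∃ P, P = l * L := ⟨_, rfl⟩
  have e1 : 50 * l * L = 50 * P := by rw [hP]; ring
  have e2 : 200 * l * L = 200 * P := by rw [hP]; ring
  rw [e2] at hln ⊢
  rw [e1] at hk1
  have hPbig : 4278 * 4278 ≤ P := by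
    rw [hP]
    exact Nat.mul_le_mul hlbig hLbig
  have hlP : 4278 * l ≤ P := by
    rw [hP, mul_comm]
    exact Nat.mul_le_mul_left _ hLbig
  -- the power of two
  obtain ⟨u, hu1, hu2⟩ : ∃ u, 100 * P ≤ 2 ^ u ∧ 2 ^ u ≤ 200 * P := by
    refine ⟨Nat.clog 2 (100 * P), Nat.le_pow_clog (by norm_num) _, ?_⟩
    have h1 := Nat.pow_pred_clog_lt_self (b := 2) (by norm_num) (x := 100 * P) (by omega)
    have h2 : 0 < Nat.clog 2 (100 * P) := Nat.clog_pos (by norm_num) (by omega)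
    obtain ⟨c, hc⟩ : ∃ c, Nat.clog 2 (100 * P) = c + 1 := ⟨Nat.clog 2 (100 * P) - 1, by omega⟩
    rw [hc] at h1 ⊢
    have h3 : 2 ^ c < 100 * P := by simpa using h1
    rw [pow_succ]
    omega
  have hu31 : 31 ≤ u := by
    by_contra hcon
    push Not at hcon
    have : 2 ^ u ≤ 2 ^ 30 := Nat.pow_le_pow_right (by norm_num) (by omega)
    omega
  have huL : u * 138 ≤ L := by
    have h1 : 2 ^ (u * 138) ≤ 2 ^ L := by
      rw [pow_mul]
      exact (Nat.pow_le_pow_left hu2 138).trans (hln.trans hnL)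
    exact (Nat.pow_le_pow_iff_right (by norm_num : 1 < 2)).1 h1
  -- the other parameters
  obtain ⟨d, hd1, hd2, hd8⟩ : ∃ d, l + 1 ≤ 310 * d ∧ 310 * d ≤ l + 2480 ∧ 8 ≤ d :=
    ⟨l / 310 + 8, by omega, by omega, by omega⟩
  have hdu : l + 1 ≤ u * (10 * d) := by
    calc l + 1 ≤ 31 * (10 * d) := by omega
      _ ≤ u * (10 * d) := Nat.mul_le_mul_right _ hu31
  obtain ⟨q, hq⟩ : ∃ q, q = 48 * (90 * d) := ⟨_, rfl⟩
  have hq23 : q ≤ 23 * l := by omega
  have hqL : L + 2 ≤ q := by omega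
  obtain ⟨g, hg⟩ : ∃ g, g = 2 * (L + 1) := ⟨_, rfl⟩
  obtain ⟨m, hm⟩ : ∃ m, m = g * q := ⟨_, rfl⟩
  have hm50 : 2 * m + 1 ≤ 100 * P := by
    have h1 : m ≤ 46 * P + 46 * l := by
      calc m = 2 * (L + 1) * q := by rw [hm, hg]
        _ ≤ 2 * (L + 1) * (23 * l) := Nat.mul_le_mul_left _ hq23
        _ = 46 * (l * L) + 46 * l := by ring
        _ = 46 * P + 46 * l := by rw [hP]
    omega
  have hmbig : 2 * (L + 1) ^ 2 + 1 ≤ m := by
    calc 2 * (L + 1) ^ 2 + 1 ≤ 2 * (L + 1) * (L + 2) := by nlinarith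
      _ ≤ 2 * (L + 1) * q := Nat.mul_le_mul_left _ hqL
      _ = m := by rw [hm, hg]
  have hm1 : 1 ≤ m := by omega
  have hkm : m ≤ k := by omega
  have : NeZero (48 * (90 * d)) := ⟨by omega⟩
  obtain ⟨B, hB⟩ := exists_good (D := 90 * d) (by omega)
  have hVq : Fintype.card (ZMod (48 * (90 * d))) = q := by rw [ZMod.card, hq]
  have hkb : 1 + 2 * (g * Fintype.card (ZMod (48 * (90 * d)))) ≤ 2 ^ u := by
    rw [hVq, ← hm]
    omega
  have hpu : u * (7872 * d + 80) ≤ 2 ^ u := by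
    have h1 : 7872 * d + 80 ≤ 41 * l := by omega
    calc u * (7872 * d + 80) ≤ u * (41 * l) := Nat.mul_le_mul_left _ h1
      _ = (41 * u) * l := by ring
      _ ≤ L * l := Nat.mul_le_mul_right _ (by omega)
      _ = P := by rw [hP]; ring
      _ ≤ 2 ^ u := by omega
  set n₀ : ℕ := n - (k - m) with hn₀
  have hn₀n : n₀ ≤ n := Nat.sub_le _ _
  have hn₀2 : n ≤ 2 * n₀ := by omega
  have hkk : k = m + (n - n₀) := by omega
  obtain ⟨v, hv⟩ : ∃ v, v = m * (2 ^ u) ^ 68 := ⟨_, rfl⟩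
  have hUpos : 1 ≤ (2 ^ u) ^ 68 := Nat.one_le_pow _ _ (by positivity)
  have hv1 : m ≤ v := by
    rw [hv]
    exact Nat.le_mul_of_pos_right _ hUpos
  have hv16 : 16 * v ^ 2 ≤ (200 * P) ^ 138 := by
    calc 16 * v ^ 2 = 4 * (2 * m) ^ 2 * ((2 ^ u) ^ 68) ^ 2 := by rw [hv]; ring
      _ ≤ 4 * (100 * P) ^ 2 * ((200 * P) ^ 68) ^ 2 := by
        have h1 : 2 * m ≤ 100 * P := by omega
        gcongr
      _ = (200 * P) ^ 138 := by ring
  obtain ⟨D, hD⟩ : ∃ D, D = (200 * P) ^ 138 := ⟨_, rfl⟩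
  rw [← hD] at hln hv16 ⊢
  have hvn : 16 * v ^ 2 ≤ n := hv16.trans hln
  set N : ℕ := n₀ / v with hN
  have hvN : v * N ≤ n₀ := Nat.mul_div_le _ _
  have hvN2 : n₀ < v * (N + 1) := Nat.lt_mul_div_succ _ (by omega)
  have hNbig : 2 * v ≤ N := by
    by_contra hcon
    push Not at hcon
    have h1 : v * (N + 1) ≤ v * (2 * v) := Nat.mul_le_mul_left _ (by omega)
    have h2 : v * (2 * v) = 2 * v ^ 2 := by ring
    omega
  obtain ⟨p, hp, hp1, hp2⟩ := Nat.exists_prime_lt_and_le_two_mul (N / 2) (by omega)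
  have hpN : p ≤ N := by omega
  have hvp : v * p ≤ n₀ := (Nat.mul_le_mul_left _ hpN).trans hvN
  have hpv : n < 4 * (p * v) := by
    have h1 : v * (N + 1) ≤ v * (2 * p) := Nat.mul_le_mul_left _ (by omega)
    have h2 : v * (2 * p) = 2 * (p * v) := by ring
    omega
  have hvlep : v ≤ p := by omega
  have hpn : p ≤ 2 ^ L := by
    have : 1 * p ≤ v * p := Nat.mul_le_mul_right _ (by omega)
    omega
  -- blocks
  have hVc : Fintype.card (BV g (ZMod (48 * (90 * d))) (Fin ((2 ^ u) ^ 17))) = v := by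
    rw [Fintype.card_prod, card_TV, Fintype.card_fun, Fintype.card_fin, Fintype.card_fin, hv, hm,
      hVq, ← pow_mul]
  obtain ⟨φ, hφ⟩ := Pool.Agent.H25.NM.exists_blocks
    (V := BV g (ZMod (48 * (90 * d))) (Fin ((2 ^ u) ^ 17))) (n := n₀) hp
    (by rw [hVc]; exact hvlep) (by rw [hVc]; exact hvp)
  have : Nonempty (Fin ((2 ^ u) ^ 17)) := ⟨⟨0, by positivity⟩⟩
  -- sizes
  have h2l : 1 ≤ 2 ^ l := Nat.one_le_two_pow
  have h2u : 2 ^ (l + 1) ≤ (2 ^ u) ^ (10 * d) := by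
    rw [← pow_mul]
    exact Nat.pow_le_pow_right (by norm_num) hdu
  have hsz : s + 1 ≤ (2 ^ u) ^ (10 * d) := by
    rw [pow_succ] at h2u
    omega
  have hRz : 2 ^ l + 1 ≤ (2 ^ u) ^ (10 * d) := by
    rw [pow_succ] at h2u
    omega
  have hJz : 2 * p ^ 2 < (2 ^ u) ^ (20 * d) := by
    calc 2 * p ^ 2 ≤ 2 * (2 ^ L) ^ 2 := by gcongr
      _ = 2 ^ (2 * L + 1) := by rw [← pow_mul]; ring
      _ < 2 ^ (u * (20 * d)) := by
        refine Nat.pow_lt_pow_right (by norm_num) ?_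
        have h1 : u * (20 * d) = 2 * (u * (10 * d)) := by ring
        omega
      _ = (2 ^ u) ^ (20 * d) := pow_mul _ _ _
  -- detectors
  obtain ⟨θ', hθ1, hθ2⟩ := exists_threshold C out θ hC
  set U : SimpleGraph (Fin n₀) → SimpleGraph (Fin n) := fun G => uni n n₀ ⊔ G.map (emb hn₀n)
    with hU
  have hUmono : ∀ G H, G ≤ H → U G ≤ U H := by
    intro G H hGH
    refine sup_le_sup_left ?_ _
    exact SimpleGraph.map_monotone _ hGH
  have hUgood : ∀ G : SimpleGraph (Fin n₀), G.CliqueFree m → (U G).CliqueFree k := by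
    intro G hG
    by_contra h3
    rw [hkk] at h3
    exact (cliqueFree_uni hn₀n G).1 h3 hG
  have hmq : g * Fintype.card (ZMod (48 * (90 * d))) = m := by rw [hm, hVq]
  have hbad := nc_not_cliqueFree_le hB (L := L) (by rw [hVq]; omega) (le_of_eq hg.symm)
    (by rw [hmq]; exact hmbig) (hn₀n.trans hnL) φ hφ
  rw [hmq] at hbad
  have hgoodbad := nc_add_nc_not fun ω : Fin (p ^ 2) →
      (TE g (ZMod (48 * (90 * d))) → Fin ((2 ^ u) ^ 17) → Bool) =>
      (pre φ (mp B) ω (p ^ 2)).CliqueFree m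
  obtain ⟨ω, hω1, hω2⟩ := chain B hB (by rw [hVq]; omega) (α := Fin ((2 ^ u) ^ 17)) (u := u)
    (g := g) (s := s + 1) (R := 2 ^ l) (Fintype.card_fin _) hd8 (by omega) hkb hpu hsz hRz
    (uni n n₀) (emb hn₀n) φ
    (fun G H => (∃ i ∈ C.watched, C.val i (U G) ≠ C.val i (U H)) ∨ θ' ≤ C.val out (U H))
    (fun G => G.CliqueFree m) (fun x y hxy hy => hy.anti hxy) (by
      intro G hG
      obtain ⟨f, hf1, hf2⟩ := C.exists_detector (U G) out θ' (hθ1 _ (hUgood G hG))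
      exact ⟨f, Fin.last s, hf1, fun H hGH => hf2 (U H) (hUmono G H hGH)⟩) (by
      intro j x G hG
      refine hθ2 (U G) (U (G ⊔ (tq B x).map (φ j))) (hUmono _ _ le_sup_left) (hUgood G hG) ?_
      have h1 := tq_not_cliqueFree B (φ j) x G
      rw [hmq] at h1
      rw [hkk]
      exact (cliqueFree_uni hn₀n _).2 h1) (by omega) hJz
  refine ⟨p ^ 2, ?_, fun a => U (pre φ (mp B) ω a), fun a b hab => hUmono _ _ (pre_mono ω hab), ?_⟩
  · have h1 : n ^ 2 < (4 * (p * v)) ^ 2 := Nat.pow_lt_pow_left hpv (by norm_num)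
    calc n ^ 2 ≤ (4 * (p * v)) ^ 2 := h1.le
      _ = 16 * v ^ 2 * p ^ 2 := by ring
      _ ≤ D * p ^ 2 := Nat.mul_le_mul_right _ hv16
  · intro a ha
    rcases hω2 ⟨a, ha⟩ with h1 | h1
    · exact h1
    · exfalso
      have h2 : (pre φ (mp B) ω (a + 1)).CliqueFree m :=
        hω1.anti (pre_mono ω (by omega : a + 1 ≤ p ^ 2))
      exact absurd h1 (not_le.mpr (hθ1 _ (hUgood _ h2)))

end Pool.Agent.H53.SPG
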