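import Pool.Agent.H53.SPG.Blk

/-! Linear programmes: renaming of the gates, thresholds, kinds of gates. -/

set_option autoImplicit false
set_option linter.unusedSectionVars false

namespace Pool.Agent.H53.SPG

open Pool.Agent.H58.LM

open Finset

theorem bit_nonneg (P : Prop) : 0 ≤ bit P := by
  by_cases h : P
  · rw [bit_true h]; norm_num
  · rw [bit_false h]

theorem bit_le_one (P : Prop) : bit P ≤ 1 := by
  by_cases h : P
  · rw [bit_true h]
  · rw [bit_false h]; norm_num

theorem bit_mono {P Q : Prop} (h : P → Q) : bit P ≤ bit Q := by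
  by_cases hP : P
  · rw [bit_true hP, bit_true (h hP)]
  · rw [bit_false hP]
    exact bit_nonneg Q

theorem bit_congr {P Q : Prop} (h : P ↔ Q) : bit P = bit Q := by rw [propext h]

theorem bit_eq_one {P : Prop} : bit P = 1 ↔ P := by
  constructor
  · intro h
    by_contra hP
    rw [bit_false hP] at h
    norm_num at h
  · exact bit_true

theorem bit_zero_or_one (P : Prop) : bit P = 0 ∨ bit P = 1 := by
  by_cases h : P
  · exact Or.inr (bit_true h)
  · exact Or.inl (bit_false h)

variable {T T' : Type}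

open Classical in
/-- renaming of the gates -/
noncomputable def Program.map (P : Program T) (e : T ↪ T') : Program T' where
  dim := P.dim
  num := P.num
  eqs := P.eqs
  ineq := P.ineq
  rhs r := Function.extend e (P.rhs r) (fun _ => 0)
  rhs_nonneg := by
    intro r j
    by_cases h : ∃ t, e t = j
    · obtain ⟨t, rfl⟩ := h
      rw [e.injective.extend_apply]
      exact P.rhs_nonneg r t
    · rw [Function.extend_apply' _ _ _ h]
  obj := P.obj
  wt := Function.extend e P.wt (fun _ => 0)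

theorem Program.map_rhs (P : Program T) (e : T ↪ T') (r : Fin P.num) (t : T) :
    (P.map e).rhs r (e t) = P.rhs r t :=
  e.injective.extend_apply (P.rhs r) (fun _ => (0 : ℝ)) t

theorem Program.map_wt (P : Program T) (e : T ↪ T') (t : T) :
    (P.map e).wt (e t) = P.wt t :=
  e.injective.extend_apply P.wt (fun _ => (0 : (Fin P.dim → ℝ) →ᵃ[ℝ] ℝ)) t

theorem Program.map_feasible (P : Program T) (e : T ↪ T') (S : Finset T) (a : T' → ℝ)
    (p : Fin P.dim → ℝ) :
    (P.map e).Feasible (S.map e) a p ↔ P.Feasible S (fun t => a (e t)) p := by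
  have h : ∀ r : Fin P.num, ∑ j ∈ S.map e, (P.map e).rhs r j * a j =
      ∑ t ∈ S, P.rhs r t * a (e t) := by
    intro r
    rw [Finset.sum_map]
    exact Finset.sum_congr rfl fun t _ => by rw [Program.map_rhs]
  constructor
  · rintro ⟨h1, h2⟩
    refine ⟨h1, fun r => ?_⟩
    rw [← h]
    exact h2 r
  · rintro ⟨h1, h2⟩
    refine ⟨h1, fun r => ?_⟩
    have h3 := h2 r
    rw [← h] at h3
    exact h3

theorem Program.map_objective (P : Program T) (e : T ↪ T') (S : Finset T) (a : T' → ℝ)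
    (p : Fin P.dim → ℝ) :
    (P.map e).objective (S.map e) a p = P.objective S (fun t => a (e t)) p := by
  unfold Program.objective
  rw [Finset.sum_map]
  congr 1
  refine Finset.sum_congr rfl fun t _ => ?_
  rw [Program.map_wt]
  rfl

theorem Program.map_value (P : Program T) (e : T ↪ T') (S : Finset T) (a : T' → ℝ) (lo hi : ℝ) :
    (P.map e).value (S.map e) a lo hi = P.value S (fun t => a (e t)) lo hi := by
  unfold Program.value
  congr 1
  ext t
  constructor
  · rintro ⟨h1, h2 | ⟨p, h2, h3⟩⟩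
    · exact ⟨h1, Or.inl h2⟩
    · refine ⟨h1, Or.inr ⟨p, (P.map_feasible e S a p).mp h2, ?_⟩⟩
      rwa [Program.map_objective] at h3
  · rintro ⟨h1, h2 | ⟨p, h2, h3⟩⟩
    · exact ⟨h1, Or.inl h2⟩
    · refine ⟨h1, Or.inr ⟨p, (P.map_feasible e S a p).mpr h2, ?_⟩⟩
      rwa [Program.map_objective]

theorem Program.Mono.map {P : Program T} {S : Finset T} (h : P.Mono S) (e : T ↪ T') :
    (P.map e).Mono (S.map e) := by
  intro a p hp j hj
  obtain ⟨t, ht, rfl⟩ := Finset.mem_map.mp hj
  rw [Program.map_wt]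
  exact h _ p ((P.map_feasible e S a p).mp hp) t ht

/-- The OR of 0-1 gates as a linear programme without inequalities. -/
theorem exists_or (S : Finset T) : ∃ P : Program T, P.num = 0 ∧ P.Mono S ∧
    ∀ v : T → Prop, P.value S (fun j => bit (v j)) 0 1 = bit (∃ j ∈ S, v j) := by
  classical
  let P : Program T :=
    { dim := 0
      num := 0
      eqs := ⊤
      ineq := fun r => r.elim0
      rhs := fun r => r.elim0
      rhs_nonneg := fun r => r.elim0
      obj := AffineMap.const ℝ _ 0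
      wt := fun _ => AffineMap.const ℝ _ 1 }
  refine ⟨P, rfl, fun a p _ j _ => zero_le_one, fun v => ?_⟩
  have hobj : ∀ p, P.objective S (fun j => bit (v j)) p = ∑ j ∈ S, bit (v j) := by
    intro p
    show (0 : ℝ) + ∑ j ∈ S, bit (v j) * 1 = _
    rw [zero_add]
    exact Finset.sum_congr rfl fun j _ => mul_one _
  have hfe : ∀ p, P.Feasible S (fun j => bit (v j)) p := fun p =>
    ⟨AffineSubspace.mem_top _ _ _, fun r => r.elim0⟩
  by_cases h : ∃ j ∈ S, v j
  · rw [bit_true h]
    obtain ⟨j, hj, hv⟩ := h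
    refine le_antisymm (value_le_hi zero_le_one) ?_
    refine le_csSup value_bdd ⟨le_rfl, Or.inr ⟨Fin.elim0, hfe _, ?_⟩⟩
    rw [hobj, ← bit_true hv]
    exact Finset.single_le_sum (f := fun j => bit (v j)) (fun i _ => bit_nonneg _) hj
  · rw [bit_false h]
    push Not at h
    refine le_antisymm ?_ (lo_le_value zero_le_one)
    refine csSup_le ⟨0, zero_le_one, Or.inl rfl⟩ ?_
    rintro t ⟨-, ht | ⟨p, -, ht⟩⟩
    · rw [ht]
    · rw [hobj, Finset.sum_eq_zero fun j hj => bit_false (h j hj)] at ht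
      exact ht

/-- the functions computed by the gates which are not special -/
def Kind {s : ℕ} (R : ℕ) (S : Finset (Fin s)) (Φ : (Fin s → ℝ) → ℝ) : Prop :=
  (∀ a, ∃ S' ⊆ S, S'.card ≤ 6 ∧ ∀ b, (∀ j ∈ S', a j ≤ b j) → Φ a ≤ Φ b) ∨
  (∃ (P : Program (Fin s)) (lo hi : ℝ), P.num ≤ R ∧ P.Mono S ∧ lo ≤ hi ∧
    ∀ a, Φ a = P.value S a lo hi) ∨
  ∀ t, ∃ P : SpanProgram (Fin s), P.num ≤ R ∧ (∀ r, P.src r ∈ S) ∧ ∀ a, t ≤ Φ a ↔ P.Accepts a

theorem Kind.mono {s R : ℕ} {S : Finset (Fin s)} {Φ : (Fin s → ℝ) → ℝ} (h : Kind R S Φ)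
    {a b : Fin s → ℝ} (hab : ∀ j ∈ S, a j ≤ b j) : Φ a ≤ Φ b := by
  rcases h with h | ⟨P, lo, hi, -, h2, h3, h4⟩ | h
  · obtain ⟨S', h1, -, h2⟩ := h a
    exact h2 b fun j hj => hab j (h1 hj)
  · rw [h4, h4]
    exact value_mono h2 h3 hab
  · obtain ⟨P, -, h2, h3⟩ := h (Φ a)
    exact (h3 b).mpr (SpanProgram.Accepts.mono (fun r => hab _ (h2 r)) ((h3 a).mp le_rfl))

theorem Kind.congr {s R : ℕ} {S : Finset (Fin s)} {Φ : (Fin s → ℝ) → ℝ} (h : Kind R S Φ)
    {a b : Fin s → ℝ} (hab : ∀ j ∈ S, a j = b j) : Φ a = Φ b :=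
  le_antisymm (h.mono fun j hj => (hab j hj).le) (h.mono fun j hj => (hab j hj).ge)

end Pool.Agent.H53.SPG
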